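import Pool.Agent.P8H63.RS.Stm

set_option autoImplicit false
set_option linter.unusedSectionVars false

/-!
# Project RS, package MAI: the theorem in terms of a space defined over `ℚ`

The bilinear form of a matrix and the conjugation of relations are copied from
`Pool.Agent.W332.OK.Inst`.
-/

namespace Pool.Agent.P8H26.RS

open Module
open Pool.Agent.W332.OK (tw NN mem_NN)
open Pool.Agent.P8H63.RS

section copied

variable {E : Type*} [Field E] [CharZero E] [IsAlgClosed E]

lemma gal_inst : IsGalois ℚ (algebraicClosure ℚ E) := by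
  have h1 : IsAlgClosed (algebraicClosure ℚ E) := (algebraicClosure.isAlgClosure ℚ E).isAlgClosed
  have h2 : @Algebra.IsAlgebraic ℚ (algebraicClosure ℚ E) _ _ (algebraicClosure ℚ E).algebra' :=
    algebraicClosure.isAlgebraic ℚ E
  have h3 : Algebra.IsAlgebraic ℚ (algebraicClosure ℚ E) := by
    convert h2
    exact Subsingleton.elim _ _
  have h4 : Normal ℚ (algebraicClosure ℚ E) :=
    { splits' := fun x => IsAlgClosed.splits _ }
  exact {}

/-- the bilinear map of a matrix -/
noncomputable def bil {n : ℕ} (M : Matrix (Fin n) (Fin n) E) :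
    (Fin n → algebraicClosure ℚ E) →ₗ[algebraicClosure ℚ E]
      (Fin n → algebraicClosure ℚ E) →ₗ[algebraicClosure ℚ E] E :=
  LinearMap.mk₂ _ (fun w v => ∑ i, ∑ j, ((w i : E) * M i j * (v j : E)))
    (by
      intro w w' v
      simp only [Pi.add_apply, AddMemClass.coe_add, add_mul, Finset.sum_add_distrib])
    (by
      intro c w v
      simp only [Pi.smul_apply, smul_eq_mul, MulMemClass.coe_mul, Algebra.smul_def, Finset.mul_sum]
      refine Finset.sum_congr rfl fun i _ => Finset.sum_congr rfl fun j _ => ?_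
      change (c : E) * (w i : E) * M i j * (v j : E) = (c : E) * ((w i : E) * M i j * (v j : E))
      ring)
    (by
      intro w v v'
      simp only [Pi.add_apply, AddMemClass.coe_add, mul_add, Finset.sum_add_distrib])
    (by
      intro c w v
      simp only [Pi.smul_apply, smul_eq_mul, MulMemClass.coe_mul, Algebra.smul_def, Finset.mul_sum]
      refine Finset.sum_congr rfl fun i _ => Finset.sum_congr rfl fun j _ => ?_
      change (w i : E) * M i j * ((c : E) * (v j : E)) = (c : E) * ((w i : E) * M i j * (v j : E))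
      ring)

lemma bil_apply {n : ℕ} (M : Matrix (Fin n) (Fin n) E) (w v : Fin n → algebraicClosure ℚ E) :
    bil M w v = ∑ i, ∑ j, ((w i : E) * M i j * (v j : E)) := rfl

variable (Λ : Submodule ℚ E) (hB : ∀ (d : ℕ) (b : Fin d → E), (∀ k, b k ∈ Λ) →
  LinearIndependent ℚ b → LinearIndependent (algebraicClosure ℚ E) b)

include hB

/-- relations with algebraic coefficients between elements of `Λ` can be conjugated -/
lemma sum_equiv {ι : Type*} [Fintype ι] (m : ι → E) (hm : ∀ i, m i ∈ Λ)
    (c : ι → algebraicClosure ℚ E) (h : ∑ i, (c i : E) * m i = 0)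
    (σ : algebraicClosure ℚ E ≃ₐ[ℚ] algebraicClosure ℚ E) :
    ∑ i, ((σ (c i) : algebraicClosure ℚ E) : E) * m i = 0 := by
  classical
  set V0 : Submodule ℚ E := Submodule.span ℚ (Set.range m) with hV0
  have hV0Λ : V0 ≤ Λ := Submodule.span_le.2 (by rintro _ ⟨i, rfl⟩; exact hm i)
  have hfin : FiniteDimensional ℚ V0 := FiniteDimensional.span_of_finite ℚ (Set.finite_range m)
  let b := Module.finBasis ℚ V0
  have hmV : ∀ i, m i ∈ V0 := fun i => Submodule.subset_span ⟨i, rfl⟩
  let q : ι → Fin (finrank ℚ V0) → ℚ := fun i k => b.repr ⟨m i, hmV i⟩ k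
  have hq : ∀ i, m i = ∑ k, ((q i k : ℚ) : E) * (b k : E) := by
    intro i
    have h1 := congrArg (fun z : V0 => (z : E)) (b.sum_repr ⟨m i, hmV i⟩)
    change ((∑ k, b.repr ⟨m i, hmV i⟩ k • b k : V0) : E) = m i at h1
    rw [← h1, AddSubmonoidClass.coe_finsetSum]
    refine Finset.sum_congr rfl fun k _ => ?_
    rw [SetLike.val_smul, Rat.smul_def]
  have hli : LinearIndependent (algebraicClosure ℚ E) (fun k => (b k : E)) := by
    apply hB _ _ (fun k => hV0Λ (b k).2)
    have h1 := b.linearIndependent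
    exact h1.map' V0.subtype (Submodule.ker_subtype V0)
  rw [Fintype.linearIndependent_iff] at hli
  have key : ∀ c : ι → algebraicClosure ℚ E, ∑ i, (c i : E) * m i =
      ∑ k, (∑ i, c i * ((q i k : ℚ) : algebraicClosure ℚ E)) • (b k : E) := by
    intro c
    have h1 : ∀ k, (∑ i, c i * ((q i k : ℚ) : algebraicClosure ℚ E)) • (b k : E) =
        ∑ i, (c i : E) * (((q i k : ℚ) : E) * (b k : E)) := by
      intro k
      rw [Finset.sum_smul]
      refine Finset.sum_congr rfl fun i _ => ?_
      rw [Algebra.smul_def]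
      change ((c i * ((q i k : ℚ) : algebraicClosure ℚ E) : algebraicClosure ℚ E) : E) * _ = _
      push_cast
      ring
    rw [Finset.sum_congr rfl (fun k _ => h1 k), Finset.sum_comm]
    refine Finset.sum_congr rfl fun i _ => ?_
    conv_lhs => rw [hq i]
    rw [Finset.mul_sum]
  rw [key] at h ⊢
  have h2 := hli _ h
  refine Finset.sum_eq_zero fun k _ => ?_
  have h3 := congrArg σ (h2 k)
  rw [map_zero, map_sum] at h3
  have h4 : ∑ i, σ (c i) * ((q i k : ℚ) : algebraicClosure ℚ E) = 0 := by
    rw [← h3]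
    refine Finset.sum_congr rfl fun i _ => ?_
    rw [map_mul, map_ratCast]
  rw [h4, zero_smul]

end copied

/-- the zeros modulo `P` of the form of a matrix with entries in `𝓛` are compatible with the Galois group -/
lemma gal_bil (𝓛 : Submodule ℚ ℂ) (P : ℂ) (hP : P ∈ 𝓛) (hB : Bak ℂ 𝓛) {n : ℕ}
    (M : Matrix (Fin n) (Fin n) ℂ) (hM : ∀ i j, M i j ∈ 𝓛) : Gal (bil M) P := by
  intro σ w v c h
  have h1 := sum_equiv 𝓛 hB (fun o : Option (Fin n × Fin n) => o.elim P (fun ij => M ij.1 ij.2))
    (by rintro (_ | ij); exacts [hP, hM _ _])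
    (fun o : Option (Fin n × Fin n) => o.elim (-c) (fun ij => w ij.1 * v ij.2)) (by
      rw [Fintype.sum_option, Fintype.sum_prod_type]
      simp only [Option.elim_none, Option.elim_some]
      rw [bil_apply] at h
      have h2 : c • P = (c : ℂ) * P := rfl
      rw [h2] at h
      have h3 : ∑ x, ∑ y, ((w x * v y : algebraicClosure ℚ ℂ) : ℂ) * M x y =
          ∑ i, ∑ j, ((w i : ℂ) * M i j * (v j : ℂ)) := by
        refine Finset.sum_congr rfl fun i _ => Finset.sum_congr rfl fun j _ => ?_
        push_cast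
        ring
      rw [h3, h]
      push_cast
      ring) σ
  rw [Fintype.sum_option, Fintype.sum_prod_type] at h1
  simp only [Option.elim_none, Option.elim_some] at h1
  rw [bil_apply]
  have h2 : σ c • P = ((σ c : algebraicClosure ℚ ℂ) : ℂ) * P := rfl
  rw [h2]
  have h3 : ∑ x, ∑ y, ((σ (w x * v y) : algebraicClosure ℚ ℂ) : ℂ) * M x y =
      ∑ i, ∑ j, (((σ (w i) : algebraicClosure ℚ ℂ) : ℂ) * M i j *
        ((σ (v j) : algebraicClosure ℚ ℂ) : ℂ)) := by
    refine Finset.sum_congr rfl fun i _ => Finset.sum_congr rfl fun j _ => ?_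
    rw [map_mul]
    push_cast
    ring
  rw [h3, map_neg] at h1
  push_cast at h1
  linear_combination h1

lemma noZero_bil {n : ℕ} (M : Matrix (Fin n) (Fin n) ℂ) (hno : ¬ HasZero M) : NoZero (bil M) := by
  intro w v hw hv h
  apply hno
  refine ⟨w, v, hw, hv, ?_⟩
  rw [bil_apply] at h
  have h3 : ∀ q : ℚ, ((algebraMap ℚ (algebraicClosure ℚ ℂ) q : algebraicClosure ℚ ℂ) : ℂ) =
      (q : ℂ) := fun q => by
    rw [eq_ratCast]; push_cast; rfl
  simpa only [h3] using h

theorem mai : S_ABS → S_MAI := by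
  intro hABS 𝓛 P hP hBak hLSTA n s ρ m M hM e he hρ X Y hXY R heR hR hRm hlt
  by_contra hno
  have : IsGalois ℚ (algebraicClosure ℚ ℂ) := gal_inst
  obtain ⟨N, S, hNe, hN, hdim, hzero⟩ := hLSTA n s ρ M hM e he hρ X Y hXY
  have hSN : S ≤ NN (bP (bil M) P) N := by
    intro w hw x hx
    obtain ⟨c, hc⟩ := hzero w hw x hx
    have h1 : bil M w x = c • P := by
      rw [bil_apply, hc]
      rfl
    change (Submodule.mkQ (Submodule.span (algebraicClosure ℚ ℂ) {P})) (bil M w x) = 0
    rw [Submodule.mkQ_apply, Submodule.Quotient.mk_eq_zero, Submodule.mem_span_singleton]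
    exact ⟨c, h1.symm⟩
  have hspan : Submodule.span (algebraicClosure ℚ ℂ) (Set.range e) ≤ R :=
    Submodule.span_le.2 (by rintro _ ⟨t, rfl⟩; exact heR t)
  have hsm : s ≤ m := by
    have h1 := Submodule.finrank_mono hspan
    rw [finrank_span_eq_card he, Fintype.card_fin] at h1
    exact h1.trans hRm
  have hsn : s ≤ n := by
    have h1 := Submodule.finrank_le (Submodule.span (algebraicClosure ℚ ℂ) (Set.range e))
    rw [finrank_span_eq_card he, Fintype.card_fin, finrank_fin_fun] at h1
    exact h1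
  have hfS := Submodule.finrank_mono hSN
  have hf : 0 < finrank (algebraicClosure ℚ ℂ) N := by
    rw [Nat.pos_iff_ne_zero]
    intro h
    exact hN (Submodule.finrank_eq_zero.1 h)
  have key := hABS (algebraicClosure ℚ ℂ) n ℂ (bil M) P (gal_bil 𝓛 P hP hBak M hM)
    (noZero_bil M hno) R N m (hNe.trans hspan) hN hR hRm
  obtain ⟨f, hfdef⟩ : ∃ f, f = finrank (algebraicClosure ℚ ℂ) N := ⟨_, rfl⟩
  obtain ⟨r, hrdef⟩ : ∃ r, r = n - finrank (algebraicClosure ℚ ℂ) (NN (bP (bil M) P) N) :=
    ⟨_, rfl⟩
  rw [← hfdef, ← hrdef] at key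
  rw [← hfdef] at hdim hf
  have hr : r ≤ n - finrank (algebraicClosure ℚ ℂ) S := by
    rw [hrdef]
    omega
  obtain ⟨k, hk⟩ : ∃ k, k = s - ρ := ⟨_, rfl⟩
  rw [← hk] at hdim hlt
  have hrk : r * k ≤ f * ρ := (Nat.mul_le_mul_right k hr).trans hdim
  have hk0 : 0 < k := by omega
  rcases key with h | h
  · have h1 : f * (n * k) ≤ f * (ρ * m) := by
      calc f * (n * k) = (n * f) * k := by ring
        _ ≤ (r * m) * k := Nat.mul_le_mul_right k h
        _ = (r * k) * m := by ring
        _ ≤ (f * ρ) * m := Nat.mul_le_mul_right m hrk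
        _ = f * (ρ * m) := by ring
    have h2 := Nat.le_of_mul_le_mul_left h1 hf
    have h3 : n * k = k * n := mul_comm _ _
    omega
  · have h1 : f * ((n - 1) * k) ≤ f * ρ := by
      calc f * ((n - 1) * k) = ((n - 1) * f) * k := by ring
        _ ≤ r * k := Nat.mul_le_mul_right k h
        _ ≤ f * ρ := hrk
    have h2 := Nat.le_of_mul_le_mul_left h1 hf
    have hn0 : n ≠ 0 := by
      rintro rfl
      rw [mul_zero] at hlt
      exact absurd hlt (Nat.not_lt_zero _)
    by_cases hn2 : 2 ≤ n
    · by_cases hm2 : 2 ≤ m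
      · have h3 : k * n ≤ ρ * m := by
          calc k * n ≤ k * (2 * (n - 1)) := Nat.mul_le_mul_left k (by omega)
            _ = ((n - 1) * k) * 2 := by ring
            _ ≤ ρ * 2 := Nat.mul_le_mul_right 2 h2
            _ ≤ ρ * m := Nat.mul_le_mul_left ρ hm2
        omega
      · have h3 : ρ = 0 := by omega
        rw [h3] at h2
        have h4 : 1 ≤ (n - 1) * k := Nat.mul_pos (by omega) hk0
        omega
    · have hn1 : n = 1 := by omega
      subst hn1
      have hs1 : s = 1 := by omega
      have hρ0 : ρ = 0 := by omega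
      subst hs1
      subst hρ0
      have h3 := hXY 0 0
      rw [Fin.sum_univ_zero, Fin.sum_univ_one] at h3
      have h4 : e 0 ≠ 0 := he.ne_zero 0
      have h5 : (e 0 0 : ℂ) ≠ 0 := by
        intro h6
        apply h4
        funext i
        rw [Subsingleton.elim i 0]
        exact Subtype.ext h6
      have h6 : M 0 0 = 0 := (mul_eq_zero.1 h3).resolve_right h5
      apply hno
      refine ⟨fun _ => 1, fun _ => 1, ?_, ?_, ?_⟩
      · intro h7
        exact one_ne_zero (congrFun h7 0)
      · intro h7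
        exact one_ne_zero (congrFun h7 0)
      · rw [Fin.sum_univ_one, Fin.sum_univ_one, h6]
        simp

end Pool.Agent.P8H26.RS
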